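import Pool.Agent.H8.Zir4

namespace Pool.Agent.Results.MP_92a1a0_co.TypeA

open Pool.Agent.H8.Bru

theorem result (n : ℕ) (u w : Equiv.Perm (Fin (n + 1))) (huw : BrLt u w) (hz : IsZircon u w) :
    ∃ i : Fin n, BrLt (simple i * w) w ∧ (¬ BrLe u (simple i * w) ∨ BrLt u (simple i * u)) :=
  delanoy u w huw hz

end Pool.Agent.Results.MP_92a1a0_co.TypeA
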